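import Pool.Agent.Helper26.RP.Goals

/-!
# MP_105b7b_pr: from seeing points to open paths (packet OP2)
-/

noncomputable section

namespace RP.PkOP2

open MeasureTheory Set

/-! ### Symmetries of `NX` -/

theorem nx_symm {a b c d : E} (h : NX a b c d) : NX c d a b := by
  rcases h with h | h
  · refine Or.inl ?_
    rcases h with h | h | h | h
    · exact Or.inl h.symm
    · exact Or.inr (Or.inr (Or.inl h.symm))
    · exact Or.inr (Or.inl h.symm)
    · exact Or.inr (Or.inr (Or.inr h.symm))
  · exact Or.inr h.symm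

theorem nx_swap {a b c d : E} (h : NX a b c d) : NX b a c d := by
  rcases h with h | h
  · refine Or.inl ?_
    tauto
  · rw [segment_symm] at h
    exact Or.inr h

theorem nx_swap' {a b c d : E} (h : NX a b c d) : NX a b d c :=
  nx_symm (nx_swap (nx_symm h))

/-! ### Geometry -/

/-- The inner points. -/
def inn {a : ℕ} (u : Fin (a + 2) → E) : Fin a → E := fun i => u i.castSucc.succ

/-- An inner edge of the path is an edge of the inner polygon. -/
theorem inner_edge {a : ℕ} (u : Fin (a + 2) → E) (i : Fin (a + 1)) (h0 : i.val ≠ 0)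
    (ha : i.val ≠ a) : ∃ i' : Fin a, u i.castSucc = inn u i' ∧
      u i.succ = inn u (finRotate a i') := by
  obtain ⟨n, rfl⟩ : ∃ n, a = n + 1 := ⟨a - 1, by have := i.isLt; omega⟩
  have hi := i.isLt
  refine ⟨⟨i.val - 1, by omega⟩, ?_, ?_⟩
  · unfold inn
    congr 1
    ext
    simp
    omega
  · rw [finRotate_of_lt (by omega)]
    unfold inn
    congr 1
    ext
    simp
    omega

theorem pa_of {a : ℕ} (h3 : 3 ≤ a) (u : Fin (a + 2) → E) (hcl : Cl (finRotate a) (inn u))
    (v1 : Vis (u 0) (inn u)) (v2 : Vis (u (Fin.last (a + 1))) (inn u))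
    (hd : Disjoint (segment ℝ (u 0) (u 1))
      (segment ℝ (u (Fin.last a).castSucc) (u (Fin.last (a + 1))))) : Pa (m := a + 1) u := by
  have e0 : u 1 = inn u ⟨0, by omega⟩ := by
    unfold inn
    congr 1
  have ea : u (Fin.last a).castSucc = inn u ⟨a - 1, by omega⟩ := by
    unfold inn
    congr 1
    ext
    simp
    omega
  -- first edge and inner edge
  have c1 : ∀ j : Fin (a + 1), j.val ≠ 0 → j.val ≠ a → NX (u 0) (u 1) (u j.castSucc) (u j.succ) := by
    intro j h0 ha
    obtain ⟨j', h1, h2⟩ := inner_edge u j h0 ha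
    rw [h1, h2, e0]
    exact v1 _ _ (Or.inl rfl)
  have c2 : ∀ j : Fin (a + 1), j.val ≠ 0 → j.val ≠ a →
      NX (u (Fin.last a).castSucc) (u (Fin.last (a + 1))) (u j.castSucc) (u j.succ) := by
    intro j h0 ha
    obtain ⟨j', h1, h2⟩ := inner_edge u j h0 ha
    rw [h1, h2, ea]
    exact nx_swap (v2 _ _ (Or.inr (by show a - 1 + 1 = a; omega)))
  have hz : ∀ i : Fin (a + 1), i.val = 0 → u i.castSucc = u 0 ∧ u i.succ = u 1 := by
    intro i hi
    constructor
    · congr 1
      ext
      simp [hi]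
    · congr 1
      ext
      simp [hi]
  have hl : ∀ i : Fin (a + 1), i.val = a → u i.castSucc = u (Fin.last a).castSucc ∧
      u i.succ = u (Fin.last (a + 1)) := by
    intro i hi
    constructor
    · congr 1
      ext
      simp [hi]
    · congr 1
      ext
      simp [hi]
  intro i j
  by_cases hi0 : i.val = 0
  · obtain ⟨i1, i2⟩ := hz i hi0
    rw [i1, i2]
    by_cases hj0 : j.val = 0
    · obtain ⟨j1, j2⟩ := hz j hj0
      rw [j1, j2]
      exact Or.inl (Or.inl rfl)
    · by_cases hja : j.val = a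
      · obtain ⟨j1, j2⟩ := hl j hja
        rw [j1, j2]
        exact Or.inr hd
      · exact c1 j hj0 hja
  · by_cases hia : i.val = a
    · obtain ⟨i1, i2⟩ := hl i hia
      rw [i1, i2]
      by_cases hj0 : j.val = 0
      · obtain ⟨j1, j2⟩ := hz j hj0
        rw [j1, j2]
        exact Or.inr hd.symm
      · by_cases hja : j.val = a
        · obtain ⟨j1, j2⟩ := hl j hja
          rw [j1, j2]
          exact Or.inl (Or.inl rfl)
        · exact c2 j hj0 hja
    · by_cases hj0 : j.val = 0
      · obtain ⟨j1, j2⟩ := hz j hj0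
        rw [j1, j2]
        exact nx_symm (c1 i hi0 hia)
      · by_cases hja : j.val = a
        · obtain ⟨j1, j2⟩ := hl j hja
          rw [j1, j2]
          exact nx_symm (c2 i hi0 hia)
        · obtain ⟨i', i1, i2⟩ := inner_edge u i hi0 hia
          obtain ⟨j', j1, j2⟩ := inner_edge u j hj0 hja
          rw [i1, i2, j1, j2]
          exact hcl.2 _ _

theorem gp_comp {ι κ : Type*} {x : ι → E} (h : GP x) {f : κ → ι} (hf : Function.Injective f) :
    GP (x ∘ f) :=
  fun _ _ _ h1 h2 h3 => h _ _ _ (fun h => h1 (hf h)) (fun h => h2 (hf h)) fun h => h3 (hf h)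

/-! ### The sets -/

/-- All open paths with endpoints in `W` and inner points in `U`. -/
def BB (W U : Set E) (a : ℕ) : Set (Fin (a + 2) → E) :=
  {u | u 0 ∈ W ∧ u (Fin.last (a + 1)) ∈ W ∧ (∀ i : Fin a, u i.succ.castSucc ∈ U) ∧
    Pa (m := a + 1) u}

/-- The preimage of `D2`. -/
def DD (W U : Set E) (a : ℕ) : Set (Fin (a + 2) → E) :=
  {u | (u 0, u (Fin.last (a + 1)), inn u) ∈ D2 W U a}

/-- The swap of the endpoints. -/
def sw (a : ℕ) : Equiv.Perm (Fin (a + 2)) := Equiv.swap 0 (Fin.last (a + 1))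

theorem dd_sub (hS : G_SWP) (W U : Set E) {a : ℕ} (h3 : 3 ≤ a) {u : Fin (a + 2) → E}
    (hu : u ∈ DD W U a) (hg : GP u) : u ∈ BB W U a ∨ u ∘ sw a ∈ BB W U a := by
  obtain ⟨hW, hW', hU, hcl, v1, v2⟩ := hu
  have hU' : ∀ i : Fin a, u i.succ.castSucc ∈ U := fun i => hU i
  have hinj : Function.Injective
      (![(0 : Fin (a + 2)), Fin.last (a + 1), 1, (Fin.last a).castSucc]) := by
    intro i j h
    have h' := congrArg Fin.val h
    fin_cases i <;> fin_cases j <;> simp at h' <;> first | rfl | omega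
  have hgp : GP ![u 0, u (Fin.last (a + 1)), u 1, u (Fin.last a).castSucc] := by
    have h1 := gp_comp hg hinj
    have h2 : u ∘ ![(0 : Fin (a + 2)), Fin.last (a + 1), 1, (Fin.last a).castSucc] =
        ![u 0, u (Fin.last (a + 1)), u 1, u (Fin.last a).castSucc] := by
      funext i
      fin_cases i <;> rfl
    rwa [h2] at h1
  rcases hS _ _ _ _ hgp with h | h
  · exact Or.inl ⟨hW, hW', hU', pa_of h3 u hcl v1 v2 h⟩
  · right
    have s0 : (u ∘ sw a) 0 = u (Fin.last (a + 1)) := by
      show u (sw a 0) = _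
      rw [sw, Equiv.swap_apply_left]
    have sl : (u ∘ sw a) (Fin.last (a + 1)) = u 0 := by
      show u (sw a _) = _
      rw [sw, Equiv.swap_apply_right]
    have si : ∀ i : Fin (a + 2), i.val ≠ 0 → i.val ≠ a + 1 → (u ∘ sw a) i = u i := by
      intro i h0 h1
      show u (sw a i) = _
      rw [sw, Equiv.swap_apply_of_ne_of_ne]
      · intro h
        exact h0 (by rw [h]; rfl)
      · intro h
        exact h1 (by rw [h]; rfl)
    have s1 : (u ∘ sw a) 1 = u 1 := si 1 (by simp) (by simp; omega)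
    have sa : (u ∘ sw a) (Fin.last a).castSucc = u (Fin.last a).castSucc :=
      si _ (by simp; omega) (by simp)
    have sin : inn (u ∘ sw a) = inn u := by
      funext i
      exact si _ (by simp) (by simp; omega)
    refine ⟨by rw [s0]; exact hW', by rw [sl]; exact hW, fun i => ?_, ?_⟩
    · rw [si _ (by simp) (by simp; omega)]
      exact hU' i
    · refine pa_of h3 _ (by rw [sin]; exact hcl) (by rw [s0, sin]; exact v2)
        (by rw [sl, sin]; exact v1) ?_
      rw [s0, sl, s1, sa]
      exact h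

theorem bb_rev (W U : Set E) {a : ℕ} {u : Fin (a + 2) → E} (hu : u ∈ BB W U a) :
    u ∘ Fin.rev ∈ BB W U a := by
  obtain ⟨hW, hW', hU, hp⟩ := hu
  have r0 : (u ∘ Fin.rev) 0 = u (Fin.last (a + 1)) := by
    show u (Fin.rev 0) = _
    rw [Fin.rev_zero]
  have rl : (u ∘ Fin.rev) (Fin.last (a + 1)) = u 0 := by
    show u (Fin.rev _) = _
    rw [Fin.rev_last]
  refine ⟨by rw [r0]; exact hW', by rw [rl]; exact hW, fun i => ?_, fun i j => ?_⟩
  · show u (Fin.rev i.succ.castSucc) ∈ U
    have h1 : Fin.rev i.succ.castSucc = (Fin.rev i).succ.castSucc := by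
      ext
      simp
      omega
    rw [h1]
    exact hU _
  · show NX (u (Fin.rev i.castSucc)) (u (Fin.rev i.succ)) (u (Fin.rev j.castSucc))
      (u (Fin.rev j.succ))
    rw [Fin.rev_castSucc, Fin.rev_succ, Fin.rev_castSucc, Fin.rev_succ]
    exact nx_swap (nx_swap' (hp _ _))

theorem bb_sub (W U : Set E) {a : ℕ} (h3 : 3 ≤ a) {u : Fin (a + 2) → E}
    (hu : u ∈ BB W U a) (hg : GP u) : u ∈ Blk W U a ∨ u ∘ Fin.rev ∈ Blk W U a := by
  obtain ⟨h1, h2, h4, h5⟩ := hu
  obtain ⟨g1, g2, g4, g5⟩ := bb_rev W U ⟨h1, h2, h4, h5⟩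
  have r0 : (u ∘ Fin.rev) 0 = u (Fin.last (a + 1)) := by
    show u (Fin.rev 0) = _
    rw [Fin.rev_zero]
  have rl : (u ∘ Fin.rev) (Fin.last (a + 1)) = u 0 := by
    show u (Fin.rev _) = _
    rw [Fin.rev_last]
  have r1 : (u ∘ Fin.rev) 1 = u (Fin.last a).castSucc := by
    show u (Fin.rev 1) = _
    congr 1
  have ra : (u ∘ Fin.rev) (Fin.last a).castSucc = u 1 := by
    show u (Fin.rev _) = _
    congr 1
    ext
    simp [Fin.val_rev]
  have o1 : orient (u (Fin.last a).castSucc) (u (Fin.last (a + 1))) (u 0) ≠ 0 := by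
    refine hg _ _ _ ?_ ?_ ?_
    · intro h
      have := congrArg Fin.val h
      simp at this
    · intro h
      have := congrArg Fin.val h
      simp at this
    · intro h
      have := congrArg Fin.val h
      simp at this
      omega
  have o2 : orient (u 1) (u 0) (u (Fin.last (a + 1))) ≠ 0 := by
    refine hg _ _ _ ?_ ?_ ?_
    · intro h
      have := congrArg Fin.val h
      simp at this
    · intro h
      have := congrArg Fin.val h
      simp at this
    · intro h
      have := congrArg Fin.val h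
      simp at this
      omega
  by_cases hle : (u 0).1 ≤ (u (Fin.last (a + 1))).1
  · rcases lt_or_gt_of_ne o1 with h | h
    · exact Or.inl ⟨h1, h2, h4, h5, Or.inl ⟨hle, h⟩⟩
    · refine Or.inr ⟨g1, g2, g4, g5, ?_⟩
      rw [r0, rl, r1, ra]
      exact Or.inr ⟨hle, h⟩
  · push Not at hle
    rcases lt_or_gt_of_ne o2 with h | h
    · refine Or.inr ⟨g1, g2, g4, g5, ?_⟩
      rw [r0, rl, r1, ra]
      exact Or.inl ⟨hle.le, h⟩
    · exact Or.inl ⟨h1, h2, h4, h5, Or.inr ⟨hle.le, h⟩⟩

/-! ### Volumes -/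

theorem vol_perm {n : ℕ} (σ : Equiv.Perm (Fin n)) (S : Set (Fin n → E)) :
    volume {u : Fin n → E | u ∘ σ ∈ S} = volume S := by
  have h := volume_measurePreserving_piCongrLeft (fun _ : Fin n => E) σ.symm
  have h1 := h.measure_preimage_equiv S
  rw [← h1]
  congr 1
  ext u
  have h2 : (MeasurableEquiv.piCongrLeft (fun _ : Fin n => E) σ.symm) u = u ∘ σ := by
    funext i
    have := MeasurableEquiv.piCongrLeft_apply_apply (β := fun _ => E) σ.symm u (σ i)
    rw [Equiv.symm_apply_apply] at this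
    exact this
  show u ∘ σ ∈ S ↔ (MeasurableEquiv.piCongrLeft (fun _ : Fin n => E) σ.symm) u ∈ S
  rw [h2]

theorem vol_dd (W U : Set E) (a : ℕ) : volume (DD W U a) = volume (D2 W U a) := by
  have m1 := volume_preserving_piFinSuccAbove (fun _ : Fin (a + 2) => E) 0
  have m2 := volume_preserving_piFinSuccAbove (fun _ : Fin (a + 1) => E) (Fin.last a)
  have m3 : MeasurePreserving (Prod.map (id : E → E)
      (MeasurableEquiv.piFinSuccAbove (fun _ : Fin (a + 1) => E) (Fin.last a)))
      (volume.prod volume) (volume.prod volume) :=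
    (MeasurePreserving.id (volume : Measure E)).prod m2
  have m4 : MeasurePreserving ((MeasurableEquiv.refl E).prodCongr
      (MeasurableEquiv.piFinSuccAbove (fun _ : Fin (a + 1) => E) (Fin.last a)))
      (volume.prod volume) (volume.prod volume) := m3
  have m5 := m1.trans m4
  have h1 := m5.measure_preimage_equiv (D2 W U a)
  refine Eq.trans ?_ h1
  congr 1
  ext u
  have h2 : ((MeasurableEquiv.piFinSuccAbove (fun _ : Fin (a + 2) => E) 0).trans
      ((MeasurableEquiv.refl E).prodCongr
      (MeasurableEquiv.piFinSuccAbove (fun _ : Fin (a + 1) => E) (Fin.last a)))) u =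
      (u 0, u (Fin.last (a + 1)), inn u) := by
    refine Prod.ext rfl (Prod.ext ?_ ?_)
    · show u (Fin.succAbove 0 (Fin.last a)) = _
      rw [Fin.succAbove_zero, Fin.succ_last]
    · funext i
      show u (Fin.succAbove 0 (Fin.succAbove (Fin.last a) i)) = _
      rw [Fin.succAbove_zero, Fin.succAbove_last]
      rfl
  show (u 0, u (Fin.last (a + 1)), inn u) ∈ D2 W U a ↔ _ ∈ D2 W U a
  rw [h2]

theorem op2 : G_SWP → G_MEA → G_NUL → G_OP2 := by
  intro hS _ hN W U a h3 _ _
  have hnull : volume {u : Fin (a + 2) → E | ¬ GP u} = 0 := ae_iff.1 (hN.2.1 (Fin (a + 2)))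
  have s1 : DD W U a ⊆ (BB W U a ∪ {u | u ∘ sw a ∈ BB W U a}) ∪ {u | ¬ GP u} := by
    intro u hu
    by_cases hg : GP u
    · exact Or.inl (dd_sub hS W U h3 hu hg)
    · exact Or.inr hg
  have s2 : BB W U a ⊆ (Blk W U a ∪ {u | u ∘ Fin.rev ∈ Blk W U a}) ∪ {u | ¬ GP u} := by
    intro u hu
    by_cases hg : GP u
    · exact Or.inl (bb_sub W U h3 hu hg)
    · exact Or.inr hg
  have v1 : volume (DD W U a) ≤ volume (BB W U a) + volume (BB W U a) := by
    refine (measure_mono s1).trans ((measure_union_le _ _).trans ?_)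
    rw [hnull, add_zero]
    refine (measure_union_le _ _).trans ?_
    rw [vol_perm (sw a)]
  have v2 : volume (BB W U a) ≤ volume (Blk W U a) + volume (Blk W U a) := by
    refine (measure_mono s2).trans ((measure_union_le _ _).trans ?_)
    rw [hnull, add_zero]
    refine (measure_union_le _ _).trans ?_
    have := vol_perm (Fin.revPerm (n := a + 2)) (Blk W U a)
    rw [show {u : Fin (a + 2) → E | u ∘ Fin.rev ∈ Blk W U a} =
      {u : Fin (a + 2) → E | u ∘ (Fin.revPerm (n := a + 2)) ∈ Blk W U a} from rfl, this]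
  rw [← vol_dd]
  calc volume (DD W U a) ≤ volume (BB W U a) + volume (BB W U a) := v1
    _ ≤ (volume (Blk W U a) + volume (Blk W U a)) +
        (volume (Blk W U a) + volume (Blk W U a)) := add_le_add v2 v2
    _ = 4 * volume (Blk W U a) := by ring

end RP.PkOP2
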